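import Pool.Agent.H20.MT.Stmts

set_option autoImplicit false
set_option linter.unusedSectionVars false

open Finset

namespace MTA

/-- double sum form of a square -/
theorem gau_sq {ι : Type} (s : Finset ι) (f : ι → ℂ) :
    ((‖∑ b ∈ s, f b‖ ^ 2 : ℝ) : ℂ) = ∑ b ∈ s, ∑ c ∈ s, f b * (starRingEnd ℂ) (f c) := by
  have h2 : ((‖∑ b ∈ s, f b‖ ^ 2 : ℝ) : ℂ) = (∑ b ∈ s, f b) * (starRingEnd ℂ) (∑ b ∈ s, f b) := by
    rw [Complex.mul_conj, Complex.normSq_eq_norm_sq]
  rw [h2, map_sum, Finset.sum_mul_sum]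

variable {r : ℕ} [NeZero r]

theorem gau_conj_add (x : ZMod r) : (starRingEnd ℂ) (ZMod.stdAddChar x) = ZMod.stdAddChar (-x) := by
  have h1 : ‖(ZMod.stdAddChar x : ℂ)‖ = 1 := AddChar.norm_apply _ _
  have h2 : (ZMod.stdAddChar x : ℂ) * ZMod.stdAddChar (-x) = 1 := by
    rw [← AddChar.map_add_eq_mul, add_neg_cancel, AddChar.map_zero_eq_one]
  have h3 : (ZMod.stdAddChar x : ℂ) * (starRingEnd ℂ) (ZMod.stdAddChar x) = 1 := by
    rw [Complex.mul_conj, Complex.normSq_eq_norm_sq, h1]
    norm_num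
  have h0 : (ZMod.stdAddChar x : ℂ) ≠ 0 := by
    intro h
    rw [h, norm_zero] at h1
    norm_num at h1
  exact mul_left_cancel₀ h0 (h3.trans h2.symm)

theorem gau_conj_char (χ : DirichletCharacter ℂ r) (x : ZMod r) :
    (starRingEnd ℂ) (χ x) = χ⁻¹ x := MulChar.star_apply' χ x

open Classical in
/-- orthogonality -/
theorem gau_orth (b c : ZMod r) :
    ∑ χ : DirichletCharacter ℂ r, χ⁻¹ b * (starRingEnd ℂ) (χ⁻¹ c) =
      if IsUnit b ∧ b = c then (r.totient : ℂ) else 0 := by
  have h1 : ∀ χ : DirichletCharacter ℂ r, (starRingEnd ℂ) (χ⁻¹ c) = χ c := by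
    intro χ
    rw [gau_conj_char, inv_inv]
  by_cases hb : IsUnit b
  · have h2 : ∀ χ : DirichletCharacter ℂ r, χ⁻¹ b = χ b⁻¹ := by
      intro χ
      obtain ⟨u, rfl⟩ := hb
      rw [MulChar.inv_apply, Ring.inverse_unit, ZMod.inv_coe_unit]
    simp only [h1, h2]
    rw [DirichletCharacter.sum_char_inv_mul_char_eq ℂ hb c]
    by_cases hbc : b = c
    · rw [if_pos hbc, if_pos ⟨hb, hbc⟩]
    · rw [if_neg hbc, if_neg (fun h => hbc h.2)]
  · rw [if_neg (fun h => hb h.1)]
    apply Finset.sum_eq_zero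
    intro χ _
    rw [MulChar.map_nonunit _ hb, zero_mul]

open Classical in
theorem gau_card : ((Finset.univ.filter (fun b : ZMod r => IsUnit b)).card : ℝ) = r.totient := by
  have h1 : (Finset.univ.filter (fun b : ZMod r => IsUnit b)).card = Fintype.card (ZMod r)ˣ := by
    rw [← Finset.card_univ (α := (ZMod r)ˣ)]
    symm
    apply Finset.card_bij (fun (u : (ZMod r)ˣ) _ => (u : ZMod r))
    · intro u _
      exact Finset.mem_filter.mpr ⟨Finset.mem_univ _, u.isUnit⟩
    · intro u _ v _ h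
      exact Units.ext h
    · intro b hb
      obtain ⟨u, hu⟩ := (Finset.mem_filter.mp hb).2
      exact ⟨u, Finset.mem_univ _, hu⟩
  rw [h1, ZMod.card_units_eq_totient]

open Classical in
theorem gau_norm_char (χ : DirichletCharacter ℂ r) (b : ZMod r) :
    ‖χ b‖ ^ 2 = if IsUnit b then 1 else 0 := by
  by_cases hb : IsUnit b
  · rw [if_pos hb]
    obtain ⟨u, rfl⟩ := hb
    rw [DirichletCharacter.unit_norm_eq_one, one_pow]
  · rw [if_neg hb, MulChar.map_nonunit _ hb, norm_zero]
    norm_num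

theorem gau_sum_char (χ : DirichletCharacter ℂ r) : ∑ b : ZMod r, ‖χ b‖ ^ 2 = r.totient := by
  classical
  rw [← gau_card (r := r), Finset.sum_congr rfl (fun b _ => gau_norm_char χ b), ← Finset.sum_filter,
    Finset.sum_const, nsmul_eq_mul, mul_one]

/-- absolute value of the Gauss sum of a primitive character -/
theorem gau_norm (χ : DirichletCharacter ℂ r) (hχ : χ.IsPrimitive) :
    ‖gaussSum χ (ZMod.stdAddChar (N := r))‖ ^ 2 = r := by
  have h1 : ∑ a : ZMod r, ‖gaussSum χ ((ZMod.stdAddChar (N := r)).mulShift a)‖ ^ 2 =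
      r.totient * ‖gaussSum χ (ZMod.stdAddChar (N := r))‖ ^ 2 := by
    rw [← gau_sum_char (χ⁻¹), Finset.sum_mul]
    apply Finset.sum_congr rfl
    intro a _
    rw [gaussSum_mulShift_of_isPrimitive _ hχ, norm_mul, mul_pow]
  have h2 : ∑ a : ZMod r, ‖gaussSum χ ((ZMod.stdAddChar (N := r)).mulShift a)‖ ^ 2 =
      (r : ℝ) * r.totient := by
    have h3 : ((∑ a : ZMod r, ‖gaussSum χ ((ZMod.stdAddChar (N := r)).mulShift a)‖ ^ 2 : ℝ) : ℂ) =
        ((r * r.totient : ℝ) : ℂ) := by
      rw [Complex.ofReal_sum]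
      have h4 : ∀ a : ZMod r, ((‖gaussSum χ ((ZMod.stdAddChar (N := r)).mulShift a)‖ ^ 2 : ℝ) : ℂ) =
          ∑ b : ZMod r, ∑ c : ZMod r, χ b * (starRingEnd ℂ) (χ c) *
            ZMod.stdAddChar (a * (b - c)) := by
        intro a
        unfold gaussSum
        rw [gau_sq]
        apply Finset.sum_congr rfl
        intro b _
        apply Finset.sum_congr rfl
        intro c _
        rw [map_mul, AddChar.mulShift_apply, AddChar.mulShift_apply, gau_conj_add, mul_sub,
          sub_eq_add_neg, AddChar.map_add_eq_mul]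
        ring
      rw [Finset.sum_congr rfl (fun a _ => h4 a), Finset.sum_comm]
      have h5 : ∀ b : ZMod r, ∑ a : ZMod r, ∑ c : ZMod r, χ b * (starRingEnd ℂ) (χ c) *
          ZMod.stdAddChar (a * (b - c)) = (r : ℂ) * ((‖χ b‖ ^ 2 : ℝ) : ℂ) := by
        intro b
        rw [Finset.sum_comm]
        have h6 : ∀ c : ZMod r, ∑ a : ZMod r, χ b * (starRingEnd ℂ) (χ c) *
            ZMod.stdAddChar (a * (b - c)) = if c = b then (r : ℂ) * (χ b * (starRingEnd ℂ) (χ b))
              else 0 := by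
          intro c
          rw [← Finset.mul_sum]
          rw [AddChar.sum_mulShift (b - c) (ZMod.isPrimitive_stdAddChar r), ZMod.card]
          by_cases hc : c = b
          · rw [if_pos (by rw [hc, sub_self]), if_pos hc, hc]
            ring
          · rw [if_neg (fun h => hc (sub_eq_zero.mp h).symm), if_neg hc]
            simp
        rw [Finset.sum_congr rfl (fun c _ => h6 c), Finset.sum_ite_eq' Finset.univ b]
        rw [if_pos (Finset.mem_univ _), Complex.mul_conj, Complex.normSq_eq_norm_sq]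
      rw [Finset.sum_congr rfl (fun b _ => h5 b), ← Finset.mul_sum, ← Complex.ofReal_sum,
        gau_sum_char]
      push_cast
      ring
    exact_mod_cast h3
  have h3 : (0 : ℝ) < r.totient := by
    exact_mod_cast Nat.totient_pos.mpr (Nat.pos_of_ne_zero (NeZero.ne r))
  have h4 : (r.totient : ℝ) * ‖gaussSum χ (ZMod.stdAddChar (N := r))‖ ^ 2 = r.totient * r := by
    rw [← h1, h2]; ring
  exact mul_left_cancel₀ h3.ne' h4

theorem GAU : S_GAU := by
  classical
  intro r hr M N a
  set e := ZMod.stdAddChar (N := r) with he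
  let S : ZMod r → ℂ := fun b => ∑ n ∈ Ioc M (M + N), a n * e ((n : ZMod r) * b)
  have hrpos : (0 : ℝ) < r := by exact_mod_cast Nat.pos_of_ne_zero (NeZero.ne r)
  have hphi : (0 : ℝ) < r.totient := by
    exact_mod_cast Nat.totient_pos.mpr (Nat.pos_of_ne_zero (NeZero.ne r))
  -- right side
  have hR : ∑ b ∈ (range r).filter (fun b => b.Coprime r),
      ‖∑ n ∈ Ioc M (M + N), a n * Complex.exp (2 * Real.pi * Complex.I * n * b / r)‖ ^ 2 =
      ∑ b : ZMod r, if IsUnit b then ‖S b‖ ^ 2 else 0 := by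
    rw [← Finset.sum_filter]
    apply Finset.sum_bij (fun (b : ℕ) _ => (b : ZMod r))
    · intro b hb
      have hb' := (Finset.mem_filter.mp hb).2
      exact Finset.mem_filter.mpr ⟨Finset.mem_univ _, (ZMod.isUnit_iff_coprime b r).mpr hb'⟩
    · intro b hb c hc h
      have hb' := Finset.mem_range.mp (Finset.mem_filter.mp hb).1
      have hc' := Finset.mem_range.mp (Finset.mem_filter.mp hc).1
      have h1 := congrArg ZMod.val h
      rw [ZMod.val_natCast, ZMod.val_natCast, Nat.mod_eq_of_lt hb', Nat.mod_eq_of_lt hc'] at h1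
      exact h1
    · intro b hb
      have hb' := (Finset.mem_filter.mp hb).2
      refine ⟨b.val, Finset.mem_filter.mpr ⟨Finset.mem_range.mpr (ZMod.val_lt b), ?_⟩,
        ZMod.natCast_zmod_val b⟩
      apply (ZMod.isUnit_iff_coprime b.val r).mp
      rw [ZMod.natCast_zmod_val]
      exact hb'
    · intro b _
      congr 2
      apply Finset.sum_congr rfl
      intro n _
      congr 1
      have h1 := ZMod.stdAddChar_coe (N := r) ((n : ℤ) * b)
      rw [he]
      have h2 : ((((n : ℤ) * b : ℤ)) : ZMod r) = (n : ZMod r) * (b : ZMod r) := by push_cast; ring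
      rw [← h2, h1]
      congr 1
      push_cast
      ring
  rw [hR]
  -- all characters
  have hA : ∑ χ : DirichletCharacter ℂ r, ‖∑ b : ZMod r, χ⁻¹ b * S b‖ ^ 2 =
      r.totient * ∑ b : ZMod r, if IsUnit b then ‖S b‖ ^ 2 else 0 := by
    have h1 : ((∑ χ : DirichletCharacter ℂ r, ‖∑ b : ZMod r, χ⁻¹ b * S b‖ ^ 2 : ℝ) : ℂ) =
        ((r.totient * ∑ b : ZMod r, (if IsUnit b then ‖S b‖ ^ 2 else 0) : ℝ) : ℂ) := by
      rw [Complex.ofReal_sum]
      have h2 : ∀ χ : DirichletCharacter ℂ r, ((‖∑ b : ZMod r, χ⁻¹ b * S b‖ ^ 2 : ℝ) : ℂ) =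
          ∑ b : ZMod r, ∑ c : ZMod r, (S b * (starRingEnd ℂ) (S c)) *
            (χ⁻¹ b * (starRingEnd ℂ) (χ⁻¹ c)) := by
        intro χ
        rw [gau_sq]
        apply Finset.sum_congr rfl
        intro b _
        apply Finset.sum_congr rfl
        intro c _
        rw [map_mul]
        ring
      rw [Finset.sum_congr rfl (fun χ _ => h2 χ), Finset.sum_comm]
      have h3 : ∀ b : ZMod r, ∑ χ : DirichletCharacter ℂ r, ∑ c : ZMod r,
          (S b * (starRingEnd ℂ) (S c)) * (χ⁻¹ b * (starRingEnd ℂ) (χ⁻¹ c)) =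
          (r.totient : ℂ) * (((if IsUnit b then ‖S b‖ ^ 2 else 0 : ℝ)) : ℂ) := by
        intro b
        rw [Finset.sum_comm]
        have h4 : ∀ c : ZMod r, ∑ χ : DirichletCharacter ℂ r,
            (S b * (starRingEnd ℂ) (S c)) * (χ⁻¹ b * (starRingEnd ℂ) (χ⁻¹ c)) =
            if b = c then (S b * (starRingEnd ℂ) (S b)) * (if IsUnit b then (r.totient : ℂ) else 0)
              else 0 := by
          intro c
          rw [← Finset.mul_sum, gau_orth]
          by_cases hbc : b = c
          · rw [if_pos hbc, ← hbc]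
            by_cases hb : IsUnit b
            · rw [if_pos ⟨hb, rfl⟩, if_pos hb]
            · rw [if_neg (fun h => hb h.1), if_neg hb]
          · rw [if_neg hbc, if_neg (fun h => hbc h.2), mul_zero]
        rw [Finset.sum_congr rfl (fun c _ => h4 c), Finset.sum_ite_eq Finset.univ b,
          if_pos (Finset.mem_univ _), Complex.mul_conj, Complex.normSq_eq_norm_sq]
        by_cases hb : IsUnit b
        · rw [if_pos hb, if_pos hb]
          ring
        · rw [if_neg hb, if_neg hb]
          simp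
      rw [Finset.sum_congr rfl (fun b _ => h3 b), ← Finset.mul_sum]
      push_cast
      rfl
    exact_mod_cast h1
  -- primitive characters
  have hP : ∀ χ : DirichletCharacter ℂ r, (if χ.IsPrimitive then
      (r : ℝ) * ‖∑ n ∈ Ioc M (M + N), a n * χ n‖ ^ 2 else 0) ≤ ‖∑ b : ZMod r, χ⁻¹ b * S b‖ ^ 2 := by
    intro χ
    by_cases hχ : χ.IsPrimitive
    · rw [if_pos hχ]
      have hχ' : (χ⁻¹ : DirichletCharacter ℂ r).IsPrimitive := by
        unfold DirichletCharacter.IsPrimitive at hχ ⊢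
        rw [DirichletCharacter.conductor_inv]
        exact hχ
      have h1 : ∑ b : ZMod r, χ⁻¹ b * S b =
          gaussSum χ⁻¹ e * ∑ n ∈ Ioc M (M + N), a n * χ n := by
        have h2 : ∀ n : ℕ, gaussSum χ⁻¹ (e.mulShift (n : ZMod r)) = χ n * gaussSum χ⁻¹ e := by
          intro n
          rw [gaussSum_mulShift_of_isPrimitive _ hχ', inv_inv]
        rw [Finset.mul_sum]
        have h3 : ∀ n ∈ Ioc M (M + N), gaussSum χ⁻¹ e * (a n * χ n) =
            ∑ b : ZMod r, χ⁻¹ b * (a n * e ((n : ZMod r) * b)) := by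
          intro n _
          have h4 := h2 n
          unfold gaussSum at h4 ⊢
          calc (∑ a, χ⁻¹ a * e a) * (a n * χ n) = a n * (χ n * ∑ a, χ⁻¹ a * e a) := by ring
            _ = a n * ∑ b : ZMod r, χ⁻¹ b * (e.mulShift (n : ZMod r)) b := by rw [← h4]
            _ = _ := by
              rw [Finset.mul_sum]
              apply Finset.sum_congr rfl
              intro b _
              rw [AddChar.mulShift_apply]
              ring
        rw [Finset.sum_congr rfl h3, Finset.sum_comm]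
        apply Finset.sum_congr rfl
        intro b _
        rw [Finset.mul_sum]
      rw [h1, norm_mul, mul_pow, he, gau_norm _ hχ']
    · rw [if_neg hχ]
      positivity
  have hfin : (r : ℝ) * prs r (fun χ => ‖∑ n ∈ Ioc M (M + N), a n * χ n‖ ^ 2) ≤
      r.totient * ∑ b : ZMod r, if IsUnit b then ‖S b‖ ^ 2 else 0 := by
    rw [← hA]
    unfold prs
    rw [Finset.mul_sum]
    apply Finset.sum_le_sum
    intro χ _
    refine le_trans (le_of_eq ?_) (hP χ)
    by_cases hχ : χ.IsPrimitive
    · rw [if_pos hχ, if_pos hχ]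
    · rw [if_neg hχ, if_neg hχ, mul_zero]
  rw [div_mul_eq_mul_div, div_le_iff₀ hphi]
  linarith

end MTA
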