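import Pool.Agent.H20.MT.Stmts

set_option autoImplicit false

open Finset

namespace MTA

/-- the additive character -/
noncomputable def lsgE (t : ℝ) : ℂ := Complex.exp (2 * Real.pi * t * Complex.I)

theorem lsgE_add (s t : ℝ) : lsgE (s + t) = lsgE s * lsgE t := by
  unfold lsgE
  rw [← Complex.exp_add]
  congr 1
  push_cast
  ring

theorem lsgE_zero : lsgE 0 = 1 := by simp [lsgE]

theorem lsgE_norm (t : ℝ) : ‖lsgE t‖ = 1 := by
  unfold lsgE
  have : (2 * Real.pi * t * Complex.I : ℂ) = ((2 * Real.pi * t : ℝ) : ℂ) * Complex.I := by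
    push_cast; ring
  rw [this, Complex.norm_exp_ofReal_mul_I]

theorem lsgE_conj (t : ℝ) : (starRingEnd ℂ) (lsgE t) = lsgE (-t) := by
  unfold lsgE
  rw [← Complex.exp_conj]
  congr 1
  have h1 : (2 * Real.pi * t * Complex.I : ℂ) = ((2 * Real.pi * t : ℝ) : ℂ) * Complex.I := by
    push_cast; ring
  rw [h1, map_mul, Complex.conj_ofReal, Complex.conj_I]
  push_cast
  ring

theorem lsgE_int (z : ℤ) : lsgE z = 1 := by
  unfold lsgE
  rw [Complex.exp_eq_one_iff]
  exact ⟨z, by push_cast; ring⟩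

theorem lsgE_nat_mul (n : ℕ) (t : ℝ) : lsgE (n * t) = lsgE t ^ n := by
  induction n with
  | zero => simp [lsgE_zero]
  | succ n ih => rw [pow_succ, ← ih, ← lsgE_add]; congr 1; push_cast; ring

theorem lsgE_sub_one (t : ℝ) (ht : |t| ≤ 1 / 2) : 4 * |t| ≤ ‖lsgE t - 1‖ := by
  have h1 : lsgE t = Complex.exp (Complex.I * ((2 * Real.pi * t : ℝ) : ℂ)) := by
    unfold lsgE; congr 1; push_cast; ring
  rw [h1, Complex.norm_exp_I_mul_ofReal_sub_one]
  have h2 : 2 * Real.pi * t / 2 = Real.pi * t := by ring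
  rw [h2, norm_mul, Real.norm_eq_abs, Real.norm_eq_abs, abs_two]
  have hpi := Real.pi_pos
  have h3 : |Real.pi * t| ≤ Real.pi / 2 := by
    rw [abs_mul, abs_of_pos hpi]
    nlinarith
  have h4 := Real.mul_abs_le_abs_sin h3
  rw [abs_mul, abs_of_pos hpi] at h4
  have h5 : 2 / Real.pi * (Real.pi * |t|) = 2 * |t| := by field_simp
  rw [h5] at h4
  linarith

/-- bound for the geometric sum -/
theorem lsg_geom (n : ℕ) (t : ℝ) (ht : |t| ≤ 1 / 2) (h0 : t ≠ 0) :
    ‖∑ m ∈ range n, lsgE (m * t)‖ ≤ 1 / (2 * |t|) := by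
  have h1 := lsgE_sub_one t ht
  have h2 : 0 < |t| := abs_pos.mpr h0
  have h3 : (∑ m ∈ range n, lsgE (m * t)) * (lsgE t - 1) = lsgE t ^ n - 1 := by
    rw [← geom_sum_mul]
    congr 1
    exact Finset.sum_congr rfl (fun m _ => lsgE_nat_mul m t)
  have h4 : ‖lsgE t ^ n - 1‖ ≤ 2 := by
    refine (norm_sub_le _ _).trans ?_
    rw [norm_pow, lsgE_norm, one_pow, norm_one]
    norm_num
  rw [← h3, norm_mul] at h4
  rw [le_div_iff₀ (by positivity)]
  have h5 := norm_nonneg (∑ m ∈ range n, lsgE (m * t))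
  nlinarith

theorem lsgE_shift (n : ℕ) (t : ℝ) : lsgE (n * t) = lsgE (n * (t - round t)) := by
  have : (n : ℝ) * t = n * (t - round t) + (((n : ℤ) * round t : ℤ) : ℝ) := by push_cast; ring
  rw [this, lsgE_add, lsgE_int, mul_one]

/-- row sums -/
theorem lsg_row (J : Type) [Fintype J] [DecidableEq J] (x : J → ℝ) (δ : ℝ) (hδ : 0 < δ)
    (hsep : ∀ i j, i ≠ j → ∀ m : ℤ, δ ≤ |x i - x j - m|) (n : ℕ) (j : J) :
    ∑ k, ‖∑ m ∈ range n, lsgE (m * (x k - x j))‖ ^ 2 ≤
      (n : ℝ) ^ 2 + (∑' z : ℤ, 1 / (z : ℝ) ^ 2) / δ ^ 2 := by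
  classical
  have hs : Summable (fun z : ℤ => 1 / (z : ℝ) ^ 2) :=
    Real.summable_one_div_int_pow.mpr (by norm_num)
  rw [← Finset.add_sum_erase _ _ (Finset.mem_univ j)]
  apply add_le_add
  · rw [sub_self]
    simp only [mul_zero, lsgE_zero, Finset.sum_const, Finset.card_range, nsmul_eq_mul, mul_one]
    rw [Complex.norm_natCast]
  · let β : J → ℝ := fun k => (x k - x j) - round (x k - x j)
    let z : J → ℤ := fun k => ⌊β k / δ⌋
    have hβ : ∀ k, |β k| ≤ 1 / 2 := fun k => abs_sub_round _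
    have hβδ : ∀ k, k ≠ j → δ ≤ |β k| := fun k hk => hsep k j hk _
    have hz : ∀ k, k ≠ j → z k ≠ 0 ∧ |(z k : ℝ)| ≤ 2 * (|β k| / δ) := by
      intro k hk
      have h1 := hβδ k hk
      have h2 : 1 ≤ |β k| / δ := by rw [le_div_iff₀ hδ]; linarith
      have h3 := Int.floor_le (β k / δ)
      have h4 := Int.lt_floor_add_one (β k / δ)
      have h5 : |β k / δ| = |β k| / δ := by rw [abs_div, abs_of_pos hδ]
      have h6 : (z k : ℝ) ≤ β k / δ := h3
      have h7 : β k / δ < z k + 1 := h4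
      rw [← h5] at h2 ⊢
      rcases le_total 0 (β k / δ) with h8 | h8
      · rw [abs_of_nonneg h8] at h2 ⊢
        have h9 : (0 : ℝ) < z k := by linarith
        refine ⟨by exact_mod_cast h9.ne', ?_⟩
        rw [abs_of_pos h9]
        linarith
      · rw [abs_of_nonpos h8] at h2 ⊢
        have h9 : (z k : ℝ) < 0 := by linarith
        refine ⟨by exact_mod_cast h9.ne, ?_⟩
        rw [abs_of_neg h9]
        linarith
    have hinj : Set.InjOn z ((Finset.univ.erase j : Finset J) : Set J) := by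
      intro k hk k' hk' h
      by_contra hne
      have h1 := hsep k k' hne (round (x k - x j) - round (x k' - x j))
      have h2 : x k - x k' - ((round (x k - x j) - round (x k' - x j) : ℤ) : ℝ) = β k - β k' := by
        simp only [β]; push_cast; ring
      rw [h2] at h1
      have h3 := Int.abs_sub_lt_one_of_floor_eq_floor h
      rw [← sub_div, abs_div, abs_of_pos hδ, div_lt_one hδ] at h3
      linarith
    have hterm : ∀ k ∈ Finset.univ.erase j, ‖∑ m ∈ range n, lsgE (m * (x k - x j))‖ ^ 2 ≤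
        (1 / (z k : ℝ) ^ 2) / δ ^ 2 := by
      intro k hk
      have hkj := (Finset.mem_erase.mp hk).1
      have h1 := hβδ k hkj
      have h0 : β k ≠ 0 := by
        intro h
        rw [h, abs_zero] at h1
        linarith
      have h2 : ∑ m ∈ range n, lsgE (m * (x k - x j)) = ∑ m ∈ range n, lsgE (m * β k) :=
        Finset.sum_congr rfl (fun m _ => lsgE_shift m _)
      rw [h2]
      have h3 := lsg_geom n (β k) (hβ k) h0
      obtain ⟨hz0, hz1⟩ := hz k hkj
      have hzpos : 0 < |(z k : ℝ)| := abs_pos.mpr (by exact_mod_cast hz0)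
      have hbpos : 0 < |β k| := abs_pos.mpr h0
      have h4 : 1 / (2 * |β k|) ≤ 1 / (|(z k : ℝ)| * δ) := by
        apply one_div_le_one_div_of_le (by positivity)
        have h5 : 2 * (|β k| / δ) * δ = 2 * |β k| := by field_simp
        rw [← h5]
        exact mul_le_mul_of_nonneg_right hz1 hδ.le
      have h6 : (1 / (z k : ℝ) ^ 2) / δ ^ 2 = (1 / (|(z k : ℝ)| * δ)) ^ 2 := by
        rw [div_pow, one_pow, mul_pow, sq_abs]
        field_simp
      rw [h6]
      exact pow_le_pow_left₀ (norm_nonneg _) (h3.trans h4) 2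
    refine (Finset.sum_le_sum hterm).trans ?_
    rw [← Finset.sum_div]
    apply div_le_div_of_nonneg_right _ (by positivity)
    rw [← Finset.sum_image (f := fun w : ℤ => 1 / (w : ℝ) ^ 2) hinj]
    exact hs.sum_le_tsum _ (fun w _ => by positivity)

/-- the dual form -/
theorem lsg_dual (J : Type) [Fintype J] (x : J → ℝ) (δ : ℝ) (hδ : 0 < δ)
    (hsep : ∀ i j, i ≠ j → ∀ m : ℤ, δ ≤ |x i - x j - m|) (N M H : ℕ) (hNH : N ≤ H) (hH : 1 ≤ H)
    (hHδ : 1 / δ ≤ H) (b : J → ℂ) :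
    ∑ n ∈ Ioc M (M + N), ‖∑ j, b j * lsgE (n * x j)‖ ^ 2 ≤
      (4 + ∑' z : ℤ, 1 / (z : ℝ) ^ 2) * H * ∑ j, ‖b j‖ ^ 2 := by
  classical
  set C0 : ℝ := ∑' z : ℤ, 1 / (z : ℝ) ^ 2 with hC0
  have hC0n : 0 ≤ C0 := tsum_nonneg (fun z => by positivity)
  let Bz : ℤ → ℂ := fun z => ∑ j, b j * lsgE (z * x j)
  have hHr : (1 : ℝ) ≤ H := by exact_mod_cast hH
  -- step 1
  have s1 : (H : ℝ) * ∑ n ∈ Ioc M (M + N), ‖∑ j, b j * lsgE (n * x j)‖ ^ 2 ≤
      ∑ p ∈ range (2 * H), ∑ m ∈ range (2 * H), ‖Bz ((M : ℤ) + m - p)‖ ^ 2 := by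
    have h1 : ∀ p ∈ range H, ∑ n ∈ Ioc M (M + N), ‖∑ j, b j * lsgE (n * x j)‖ ^ 2 ≤
        ∑ m ∈ range (2 * H), ‖Bz ((M : ℤ) + m - p)‖ ^ 2 := by
      intro p hp
      have hp' := Finset.mem_range.mp hp
      have hinj : Set.InjOn (fun n : ℕ => n - M + p) ((Ioc M (M + N) : Finset ℕ) : Set ℕ) := by
        intro n hn n' hn' h
        simp only [Finset.coe_Ioc, Set.mem_Ioc] at hn hn'
        simp only at h
        omega
      have h2 : ∑ n ∈ Ioc M (M + N), ‖∑ j, b j * lsgE (n * x j)‖ ^ 2 =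
          ∑ m ∈ (Ioc M (M + N)).image (fun n : ℕ => n - M + p), ‖Bz ((M : ℤ) + m - p)‖ ^ 2 := by
        rw [Finset.sum_image hinj]
        apply Finset.sum_congr rfl
        intro n hn
        have hn' := Finset.mem_Ioc.mp hn
        have h3 : (M : ℤ) + ((n - M + p : ℕ) : ℤ) - p = n := by omega
        rw [h3]
        simp [Bz]
      rw [h2]
      apply Finset.sum_le_sum_of_subset_of_nonneg
      · intro m hm
        obtain ⟨n, hn, rfl⟩ := Finset.mem_image.mp hm
        have hn' := Finset.mem_Ioc.mp hn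
        exact Finset.mem_range.mpr (by omega)
      · intro m _ _; positivity
    calc (H : ℝ) * ∑ n ∈ Ioc M (M + N), ‖∑ j, b j * lsgE (n * x j)‖ ^ 2
        = ∑ p ∈ range H, ∑ n ∈ Ioc M (M + N), ‖∑ j, b j * lsgE (n * x j)‖ ^ 2 := by
          rw [Finset.sum_const, Finset.card_range, nsmul_eq_mul]
      _ ≤ ∑ p ∈ range H, ∑ m ∈ range (2 * H), ‖Bz ((M : ℤ) + m - p)‖ ^ 2 := Finset.sum_le_sum h1
      _ ≤ _ := Finset.sum_le_sum_of_subset_of_nonneg
          (fun p hp => Finset.mem_range.mpr (by have := Finset.mem_range.mp hp; omega))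
          (fun p _ _ => Finset.sum_nonneg (fun m _ => by positivity))
  -- step 2
  let D : J → J → ℂ := fun k j => ∑ m ∈ range (2 * H), lsgE (m * (x k - x j))
  have hDsym : ∀ k j, ‖D k j‖ = ‖D j k‖ := by
    intro k j
    have h1 : D k j = (starRingEnd ℂ) (D j k) := by
      simp only [D, map_sum]
      apply Finset.sum_congr rfl
      intro m _
      rw [lsgE_conj]
      congr 1
      ring
    rw [h1, Complex.norm_conj]
  have s2 : ((∑ p ∈ range (2 * H), ∑ m ∈ range (2 * H), ‖Bz ((M : ℤ) + m - p)‖ ^ 2 : ℝ) : ℂ) =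
      ∑ j, ∑ k, b j * (starRingEnd ℂ) (b k) * lsgE (M * (x j - x k)) *
        (D j k * (starRingEnd ℂ) (D j k)) := by
    have h1 : ∀ w : ℤ, ((‖Bz w‖ ^ 2 : ℝ) : ℂ) =
        ∑ j, ∑ k, b j * (starRingEnd ℂ) (b k) * lsgE (w * (x j - x k)) := by
      intro w
      have h2 : ((‖Bz w‖ ^ 2 : ℝ) : ℂ) = Bz w * (starRingEnd ℂ) (Bz w) := by
        rw [Complex.mul_conj, Complex.normSq_eq_norm_sq]
      rw [h2]
      simp only [Bz, map_sum, Finset.sum_mul_sum, map_mul]
      apply Finset.sum_congr rfl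
      intro j _
      apply Finset.sum_congr rfl
      intro k _
      rw [lsgE_conj]
      have : lsgE (w * (x j - x k)) = lsgE (w * x j) * lsgE (-(w * x k)) := by
        rw [← lsgE_add]; congr 1; ring
      rw [this]
      ring
    push_cast
    have h3 : ∀ p ∈ range (2 * H), ∀ m ∈ range (2 * H), ((‖Bz ((M : ℤ) + m - p)‖ : ℂ) ^ 2) =
        ∑ j, ∑ k, b j * (starRingEnd ℂ) (b k) * lsgE (M * (x j - x k)) *
          (lsgE (m * (x j - x k)) * lsgE (-(p * (x j - x k)))) := by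
      intro p _ m _
      have := h1 ((M : ℤ) + m - p)
      push_cast at this
      rw [this]
      apply Finset.sum_congr rfl
      intro j _
      apply Finset.sum_congr rfl
      intro k _
      have : lsgE (((M : ℝ) + m - p) * (x j - x k)) = lsgE (M * (x j - x k)) *
          (lsgE (m * (x j - x k)) * lsgE (-(p * (x j - x k)))) := by
        rw [← lsgE_add, ← lsgE_add]; congr 1; ring
      rw [this]
      ring
    rw [Finset.sum_congr rfl (fun p hp => Finset.sum_congr rfl (fun m hm => h3 p hp m hm))]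
    have h4 : ∀ p ∈ range (2 * H), ∑ m ∈ range (2 * H), ∑ j, ∑ k,
        b j * (starRingEnd ℂ) (b k) * lsgE (M * (x j - x k)) *
          (lsgE (m * (x j - x k)) * lsgE (-(p * (x j - x k)))) =
        ∑ j, ∑ k, b j * (starRingEnd ℂ) (b k) * lsgE (M * (x j - x k)) *
          (D j k * lsgE (-(p * (x j - x k)))) := by
      intro p _
      rw [Finset.sum_comm]
      apply Finset.sum_congr rfl
      intro j _
      rw [Finset.sum_comm]
      apply Finset.sum_congr rfl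
      intro k _
      rw [← Finset.mul_sum]
      congr 1
      simp only [D]
      rw [Finset.sum_mul]
    rw [Finset.sum_congr rfl h4, Finset.sum_comm]
    apply Finset.sum_congr rfl
    intro j _
    rw [Finset.sum_comm]
    apply Finset.sum_congr rfl
    intro k _
    rw [← Finset.mul_sum, ← Finset.mul_sum]
    congr 2
    simp only [D, map_sum]
    apply Finset.sum_congr rfl
    intro p _
    rw [lsgE_conj]
  have s3 : ∑ p ∈ range (2 * H), ∑ m ∈ range (2 * H), ‖Bz ((M : ℤ) + m - p)‖ ^ 2 ≤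
      ∑ j, ∑ k, ‖b j‖ * ‖b k‖ * ‖D j k‖ ^ 2 := by
    have h0 : 0 ≤ ∑ p ∈ range (2 * H), ∑ m ∈ range (2 * H), ‖Bz ((M : ℤ) + m - p)‖ ^ 2 :=
      Finset.sum_nonneg (fun p _ => Finset.sum_nonneg (fun m _ => by positivity))
    have h1 : ∑ p ∈ range (2 * H), ∑ m ∈ range (2 * H), ‖Bz ((M : ℤ) + m - p)‖ ^ 2 =
        ‖((∑ p ∈ range (2 * H), ∑ m ∈ range (2 * H), ‖Bz ((M : ℤ) + m - p)‖ ^ 2 : ℝ) : ℂ)‖ := by
      rw [Complex.norm_real, Real.norm_eq_abs, abs_of_nonneg h0]
    rw [h1, s2]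
    refine (norm_sum_le _ _).trans (Finset.sum_le_sum (fun j _ => ?_))
    refine (norm_sum_le _ _).trans (Finset.sum_le_sum (fun k _ => ?_))
    rw [norm_mul, norm_mul, norm_mul, norm_mul, Complex.norm_conj, Complex.norm_conj, lsgE_norm,
      mul_one]
    apply le_of_eq
    ring
  have s4 : ∑ j, ∑ k, ‖b j‖ * ‖b k‖ * ‖D j k‖ ^ 2 ≤ ∑ j, ‖b j‖ ^ 2 * ∑ k, ‖D k j‖ ^ 2 := by
    have h1 : ∑ j, ∑ k, ‖b j‖ * ‖b k‖ * ‖D j k‖ ^ 2 ≤
        ∑ j, ∑ k, (‖b j‖ ^ 2 / 2 * ‖D j k‖ ^ 2 + ‖b k‖ ^ 2 / 2 * ‖D j k‖ ^ 2) := by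
      apply Finset.sum_le_sum
      intro j _
      apply Finset.sum_le_sum
      intro k _
      have := mul_nonneg (sq_nonneg (‖b j‖ - ‖b k‖)) (sq_nonneg ‖D j k‖)
      nlinarith
    refine h1.trans (le_of_eq ?_)
    simp only [Finset.sum_add_distrib]
    have h2 : ∑ j, ∑ k, ‖b k‖ ^ 2 / 2 * ‖D j k‖ ^ 2 = ∑ j, ∑ k, ‖b j‖ ^ 2 / 2 * ‖D j k‖ ^ 2 := by
      rw [Finset.sum_comm]
      apply Finset.sum_congr rfl
      intro j _
      apply Finset.sum_congr rfl
      intro k _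
      rw [hDsym]
    rw [h2, ← Finset.sum_add_distrib]
    apply Finset.sum_congr rfl
    intro j _
    rw [← Finset.sum_add_distrib, Finset.mul_sum]
    apply Finset.sum_congr rfl
    intro k _
    rw [hDsym k j]
    ring
  have s5 : ∑ j, ‖b j‖ ^ 2 * ∑ k, ‖D k j‖ ^ 2 ≤ ∑ j, ‖b j‖ ^ 2 * ((4 + C0) * H ^ 2) := by
    apply Finset.sum_le_sum
    intro j _
    apply mul_le_mul_of_nonneg_left _ (sq_nonneg _)
    have h1 := lsg_row J x δ hδ hsep (2 * H) j
    rw [← hC0] at h1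
    refine h1.trans ?_
    have h2 : C0 / δ ^ 2 ≤ C0 * H ^ 2 := by
      rw [div_eq_mul_one_div, ← one_div_pow]
      apply mul_le_mul_of_nonneg_left _ hC0n
      exact pow_le_pow_left₀ (by positivity) hHδ 2
    push_cast
    nlinarith
  have s6 := s1.trans (s3.trans (s4.trans s5))
  rw [← Finset.sum_mul] at s6
  have hHpos : (0 : ℝ) < H := by linarith
  have s7 : (H : ℝ) * ∑ n ∈ Ioc M (M + N), ‖∑ j, b j * lsgE (n * x j)‖ ^ 2 ≤
      H * ((4 + C0) * H * ∑ j, ‖b j‖ ^ 2) := by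
    refine s6.trans (le_of_eq ?_)
    ring
  exact le_of_mul_le_mul_left s7 hHpos

theorem LSG : S_LSG := by
  set C0 : ℝ := ∑' z : ℤ, 1 / (z : ℝ) ^ 2 with hC0
  have hC0n : 0 ≤ C0 := tsum_nonneg (fun z => by positivity)
  refine ⟨2 * (4 + C0), by positivity, ?_⟩
  intro J _ x δ hδ hδ1 hsep N M hN a
  have e1 : ∀ (n : ℕ) (j : J), Complex.exp (2 * Real.pi * Complex.I * n * x j) =
      lsgE (n * x j) := by
    intro n j
    unfold lsgE
    congr 1
    push_cast
    ring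
  simp only [e1]
  set S : J → ℂ := fun j => ∑ n ∈ Ioc M (M + N), a n * lsgE (n * x j) with hS
  set Z : ℝ := ∑ j, ‖S j‖ ^ 2 with hZ
  set A : ℝ := ∑ n ∈ Ioc M (M + N), ‖a n‖ ^ 2 with hA
  have hZ0 : 0 ≤ Z := Finset.sum_nonneg (fun j _ => by positivity)
  have hA0 : 0 ≤ A := Finset.sum_nonneg (fun j _ => by positivity)
  have hN1 : (1 : ℝ) ≤ N := by exact_mod_cast hN
  set H : ℕ := N + ⌈1 / δ⌉₊ with hH
  have hd := lsg_dual J x δ hδ hsep N M H (by omega) (by omega)
    (by rw [hH]; push_cast; have := Nat.le_ceil (1 / δ); linarith) (fun j => (starRingEnd ℂ) (S j))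
  have hHle : (H : ℝ) ≤ 2 * (N + 1 / δ) := by
    rw [hH]; push_cast
    have h1 := (Nat.ceil_lt_add_one (show 0 ≤ 1 / δ by positivity)).le
    have h2 : 0 < 1 / δ := by positivity
    linarith
  rw [← hC0] at hd
  simp only [Complex.norm_conj] at hd
  rw [← hZ] at hd
  -- Z is a bilinear sum
  have hZc : (Z : ℂ) = ∑ n ∈ Ioc M (M + N), a n * ∑ j, (starRingEnd ℂ) (S j) * lsgE (n * x j) := by
    have h1 : (Z : ℂ) = ∑ j, (starRingEnd ℂ) (S j) * S j := by
      rw [hZ]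
      push_cast
      apply Finset.sum_congr rfl
      intro j _
      rw [mul_comm, Complex.mul_conj, Complex.normSq_eq_norm_sq]
      push_cast
      rfl
    rw [h1]
    have h2 : ∀ j, (starRingEnd ℂ) (S j) * S j = ∑ n ∈ Ioc M (M + N),
        a n * ((starRingEnd ℂ) (S j) * lsgE (n * x j)) := by
      intro j
      conv_lhs => rw [show S j = ∑ n ∈ Ioc M (M + N), a n * lsgE (n * x j) from rfl]
      rw [Finset.mul_sum]
      apply Finset.sum_congr rfl
      intro n _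
      simp only [hS]
      ring
    rw [Finset.sum_congr rfl (fun j _ => h2 j), Finset.sum_comm]
    apply Finset.sum_congr rfl
    intro n _
    rw [Finset.mul_sum]
  have hZn : Z ≤ ∑ n ∈ Ioc M (M + N), ‖a n‖ * ‖∑ j, (starRingEnd ℂ) (S j) * lsgE (n * x j)‖ := by
    have h1 : Z = ‖(Z : ℂ)‖ := by rw [Complex.norm_real, Real.norm_eq_abs, abs_of_nonneg hZ0]
    rw [h1, hZc]
    refine (norm_sum_le _ _).trans (le_of_eq ?_)
    apply Finset.sum_congr rfl
    intro n _
    rw [norm_mul]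
  have hCS := Finset.sum_mul_sq_le_sq_mul_sq (Ioc M (M + N)) (fun n => ‖a n‖)
    (fun n => ‖∑ j, (starRingEnd ℂ) (S j) * lsgE (n * x j)‖)
  have h1 : Z ^ 2 ≤ A * ((4 + C0) * H * Z) := by
    refine (pow_le_pow_left₀ hZ0 hZn 2).trans (hCS.trans ?_)
    exact mul_le_mul_of_nonneg_left hd hA0
  have h2 : Z ≤ (4 + C0) * H * A := by
    rcases hZ0.eq_or_lt with h | h
    · rw [← h]; positivity
    · have h3 : Z * Z ≤ ((4 + C0) * H * A) * Z := by nlinarith
      exact le_of_mul_le_mul_right h3 h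
  refine h2.trans ?_
  have h3 : (4 + C0) * H ≤ 2 * (4 + C0) * (N + 1 / δ) := by
    have := mul_le_mul_of_nonneg_left hHle (show 0 ≤ 4 + C0 by positivity)
    linarith
  exact mul_le_mul_of_nonneg_right h3 hA0

end MTA
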