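import Pool.Agent.H20.MT.Stmts

set_option autoImplicit false

open Finset

namespace MTA

theorem tau2_harm (N : ℕ) : ∑ m ∈ Icc 1 N, (1 : ℝ) / m ≤ 1 + Real.log N := by
  have h := harmonic_le_one_add_log N
  have h2 : ((harmonic N : ℚ) : ℝ) = ∑ m ∈ Icc 1 N, (1 : ℝ) / m := by
    rw [harmonic_eq_sum_Icc]
    push_cast
    apply Finset.sum_congr rfl
    intro m _
    rw [one_div]
  rw [← h2]
  exact h

/-- the number of multiples of `l` up to `N` -/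
theorem tau2_mult (N l : ℕ) :
    (((Icc 1 N).filter (fun n => l ∣ n)).card : ℝ) ≤ (N : ℝ) / l := by
  have h1 : ((Icc 1 N).filter (fun n => l ∣ n)).card = N / l := by
    rw [← Nat.Ioc_filter_dvd_card_eq_div N l]
    rfl
  rw [h1]
  exact Nat.cast_div_le

theorem tau2_inj (N n : ℕ) (hn1 : 1 ≤ n) (hnN : n ≤ N) :
    n.divisors.card ^ 2 ≤ ((Icc 1 N ×ˢ Icc 1 N ×ˢ Icc 1 N).filter
      (fun p : ℕ × ℕ × ℕ => p.1 * p.2.1 * p.2.2 ∣ n)).card := by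
  rw [sq, ← Finset.card_product]
  apply Finset.card_le_card_of_injOn
    (fun p : ℕ × ℕ => ((Nat.gcd p.1 p.2, p.1 / Nat.gcd p.1 p.2, p.2 / Nat.gcd p.1 p.2) : ℕ × ℕ × ℕ))
  · rintro ⟨d, e⟩ hp
    simp only [Finset.coe_product, Set.mem_prod, Finset.mem_coe, Nat.mem_divisors] at hp
    obtain ⟨⟨hd, -⟩, ⟨he, -⟩⟩ := hp
    have hdp : 0 < d := Nat.pos_of_dvd_of_pos hd (by omega)
    have hep : 0 < e := Nat.pos_of_dvd_of_pos he (by omega)
    have hdn := Nat.le_of_dvd (by omega) hd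
    have hen := Nat.le_of_dvd (by omega) he
    have hg : 0 < Nat.gcd d e := Nat.gcd_pos_of_pos_left _ hdp
    have hgd : Nat.gcd d e ∣ d := Nat.gcd_dvd_left _ _
    have hge : Nat.gcd d e ∣ e := Nat.gcd_dvd_right _ _
    have h1 := Nat.le_of_dvd hdp hgd
    have h2 := Nat.div_le_self d (Nat.gcd d e)
    have h3 := Nat.div_le_self e (Nat.gcd d e)
    have h4 := Nat.div_pos h1 hg
    have h5 := Nat.div_pos (Nat.le_of_dvd hep hge) hg
    have h6 : Nat.gcd d e * (d / Nat.gcd d e) * (e / Nat.gcd d e) = Nat.lcm d e := by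
      rw [Nat.mul_div_cancel' hgd]
      unfold Nat.lcm
      rw [Nat.mul_div_assoc _ hge]
    simp only [Finset.coe_filter, Set.mem_setOf_eq, Finset.mem_product, Finset.mem_Icc]
    refine ⟨⟨⟨by omega, by omega⟩, ⟨by omega, by omega⟩, ⟨by omega, by omega⟩⟩, ?_⟩
    rw [h6]
    exact Nat.lcm_dvd hd he
  · rintro ⟨d, e⟩ hp ⟨d', e'⟩ hp' h
    simp only [Prod.mk.injEq] at h
    obtain ⟨h1, h2, h3⟩ := h
    have g1 : Nat.gcd d e ∣ d := Nat.gcd_dvd_left _ _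
    have g2 : Nat.gcd d e ∣ e := Nat.gcd_dvd_right _ _
    have g3 : Nat.gcd d' e' ∣ d' := Nat.gcd_dvd_left _ _
    have g4 : Nat.gcd d' e' ∣ e' := Nat.gcd_dvd_right _ _
    have k1 : d = d' := by
      rw [← Nat.mul_div_cancel' g1, ← Nat.mul_div_cancel' g3, h1]
      rw [h1] at h2
      rw [h2]
    have k2 : e = e' := by
      rw [← Nat.mul_div_cancel' g2, ← Nat.mul_div_cancel' g4, h1]
      rw [h1] at h3
      rw [h3]
    rw [k1, k2]

theorem TAU2 : S_TAU2 := by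
  classical
  have hl2 : 0 < Real.log 2 := Real.log_pos (by norm_num)
  refine ⟨(1 / Real.log 2 + 1) ^ 3, by positivity, ?_⟩
  intro N hN
  have hN2 : (2 : ℝ) ≤ N := by exact_mod_cast hN
  have hlN : Real.log 2 ≤ Real.log N := Real.log_le_log (by norm_num) hN2
  set T : Finset (ℕ × ℕ × ℕ) := Icc 1 N ×ˢ Icc 1 N ×ˢ Icc 1 N with hT
  have h1 : ∑ n ∈ Icc 1 N, (n.divisors.card : ℝ) ^ 2 ≤
      ∑ n ∈ Icc 1 N, ∑ p ∈ T, if p.1 * p.2.1 * p.2.2 ∣ n then (1 : ℝ) else 0 := by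
    apply Finset.sum_le_sum
    intro n hn
    have hn' := Finset.mem_Icc.mp hn
    rw [← Finset.sum_filter, Finset.sum_const, nsmul_eq_mul, mul_one]
    exact_mod_cast tau2_inj N n hn'.1 hn'.2
  have h2 : ∑ n ∈ Icc 1 N, ∑ p ∈ T, (if p.1 * p.2.1 * p.2.2 ∣ n then (1 : ℝ) else 0) ≤
      ∑ p ∈ T, (N : ℝ) * ((1 / (p.1 : ℝ)) * ((1 / (p.2.1 : ℝ)) * (1 / (p.2.2 : ℝ)))) := by
    rw [Finset.sum_comm]
    apply Finset.sum_le_sum
    intro p _
    rw [← Finset.sum_filter, Finset.sum_const, nsmul_eq_mul, mul_one]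
    refine (tau2_mult N _).trans (le_of_eq ?_)
    push_cast
    rw [div_eq_mul_one_div, one_div_mul_one_div, one_div_mul_one_div, mul_assoc]
  have h3 : ∑ p ∈ T, (N : ℝ) * ((1 / (p.1 : ℝ)) * ((1 / (p.2.1 : ℝ)) * (1 / (p.2.2 : ℝ)))) =
      N * (∑ m ∈ Icc 1 N, (1 : ℝ) / m) ^ 3 := by
    rw [← Finset.mul_sum, hT, Finset.sum_product]
    congr 1
    have h4 : ∀ x ∈ Icc 1 N, ∑ y ∈ Icc 1 N ×ˢ Icc 1 N, (1 / (x : ℝ)) * ((1 / ((y.1 : ℕ) : ℝ)) *
        (1 / ((y.2 : ℕ) : ℝ))) = (1 / (x : ℝ)) * (∑ m ∈ Icc 1 N, (1 : ℝ) / m) ^ 2 := by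
      intro x _
      rw [← Finset.mul_sum, Finset.sum_product, sq, Finset.sum_mul_sum]
    rw [Finset.sum_congr rfl h4, ← Finset.sum_mul]
    ring
  rw [h3] at h2
  refine (h1.trans h2).trans ?_
  have h5 := tau2_harm N
  have h6 : 0 ≤ ∑ m ∈ Icc 1 N, (1 : ℝ) / m := Finset.sum_nonneg (fun m _ => by positivity)
  have h7 : 1 + Real.log N ≤ (1 / Real.log 2 + 1) * Real.log N := by
    have : 1 ≤ 1 / Real.log 2 * Real.log N := by
      rw [one_div, ← div_eq_inv_mul, le_div_iff₀ hl2]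
      linarith
    linarith
  have h8 := pow_le_pow_left₀ h6 (h5.trans h7) 3
  rw [mul_pow] at h8
  calc (N : ℝ) * (∑ m ∈ Icc 1 N, (1 : ℝ) / m) ^ 3
      ≤ N * ((1 / Real.log 2 + 1) ^ 3 * Real.log N ^ 3) :=
        mul_le_mul_of_nonneg_left h8 (by positivity)
    _ = _ := by ring

end MTA
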